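import Pool.Agent.Helper25.HL.Goals3

/-!
# Packet HL-CU: the cut estimate for normalised nuclear representations
-/

set_option autoImplicit false

open Filter Topology

noncomputable section

namespace Pool.Agent.Helper13.HL

open Pool.Agent.Helper25.HL

variable {P : ℕ → ℕ} {D : ∀ k, Lv (P k) (P (k + 1))} {ω : ℕ → ℝ} {u : ℕ → XX P D}
  {f : ℕ → (XX P D →L[ℂ] ℂ)}

theorem tr_bound (hr : NRep P D ω u f) (T : XX P D →L[ℂ] XX P D) (i : ℕ) :
    ‖(ω i : ℂ) * f i (T (u i))‖ ≤ ω i * ‖T‖ := by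
  rw [norm_mul, Complex.norm_real, Real.norm_of_nonneg (hr.hω i)]
  apply mul_le_mul_of_nonneg_left _ (hr.hω i)
  calc ‖f i (T (u i))‖ ≤ ‖f i‖ * ‖T (u i)‖ := (f i).le_opNorm _
    _ ≤ 1 * (‖T‖ * 1) := by
      apply mul_le_mul (hr.hf i) _ (norm_nonneg _) zero_le_one
      exact (T.le_opNorm _).trans (mul_le_mul_of_nonneg_left (hr.hu i) (norm_nonneg _))
    _ = ‖T‖ := by ring

theorem tr_summ (hr : NRep P D ω u f) (T : XX P D →L[ℂ] XX P D) :
    Summable (fun i => (ω i : ℂ) * f i (T (u i))) :=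
  Summable.of_norm_bounded (hr.hs.mul_right ‖T‖) (tr_bound hr T)

theorem tr_rank (hr : NRep P D ω u f) (j : ℕ) (G : XX P D →L[ℂ] ℂ) (a : ℂ) :
    ∑' i, (ω i : ℂ) * f i ((G.smulRight (a • u j)) (u i)) = 0 := by
  have hs : Summable (fun i => ((ω i : ℂ) * f i (u j)) • u i) := by
    apply Summable.of_norm_bounded hr.hs
    intro i
    rw [norm_smul, norm_mul, Complex.norm_real, Real.norm_of_nonneg (hr.hω i)]
    have e1 : ‖f i (u j)‖ ≤ 1 := by
      calc ‖f i (u j)‖ ≤ ‖f i‖ * ‖u j‖ := (f i).le_opNorm _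
        _ ≤ 1 * 1 := mul_le_mul (hr.hf i) (hr.hu j) (norm_nonneg _) zero_le_one
        _ = 1 := one_mul 1
    have e2 := hr.hu i
    have e3 := hr.hω i
    calc ω i * ‖f i (u j)‖ * ‖u i‖ ≤ ω i * 1 * 1 := by gcongr
      _ = ω i := by ring
  have h0 := hr.h0 j
  have h1 : ∑' i, G (((ω i : ℂ) * f i (u j)) • u i) = 0 := by
    rw [← G.map_tsum hs, h0, map_zero]
  have h2 : ∀ i, (ω i : ℂ) * f i ((G.smulRight (a • u j)) (u i)) =
      a * G (((ω i : ℂ) * f i (u j)) • u i) := by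
    intro i
    rw [ContinuousLinearMap.smulRight_apply, map_smul, map_smul, map_smul, smul_eq_mul,
      smul_eq_mul, smul_eq_mul]
    ring
  simp_rw [h2, tsum_mul_left, h1, mul_zero]

theorem tr_fin (hr : NRep P D ω u f) (N : ℕ) (G : Fin N → (XX P D →L[ℂ] ℂ)) (a : Fin N → ℂ) :
    ∑' i, (ω i : ℂ) * f i ((∑ j : Fin N, (G j).smulRight (a j • u j)) (u i)) = 0 := by
  have h1 : ∀ i, (ω i : ℂ) * f i ((∑ j : Fin N, (G j).smulRight (a j • u j)) (u i)) =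
      ∑ j : Fin N, (ω i : ℂ) * f i (((G j).smulRight (a j • u j)) (u i)) := by
    intro i
    rw [sum_apply, map_sum, Finset.mul_sum]
  simp_rw [h1]
  rw [Summable.tsum_finsetSum (fun j _ => tr_summ hr _)]
  exact Finset.sum_eq_zero (fun j _ => tr_rank hr j (G j) (a j))

/-- The rescaling factor (its square inverse). -/
def rho (P : ℕ → ℕ) (D : ∀ k, Lv (P k) (P (k + 1))) (u : ℕ → XX P D)
    (f : ℕ → (XX P D →L[ℂ] ℂ)) (c : ℕ) (j : ℕ) : ℝ :=
  1 + 2 ^ (D c).J * ((‖u j c‖ ^ 2 + ‖(f j).comp (emb P D c)‖ ^ 2) +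
    (‖u j (c + 1)‖ ^ 2 + ‖(f j).comp (emb P D (c + 1))‖ ^ 2))

theorem one_le_rho (c j : ℕ) : 1 ≤ rho P D u f c j := by
  unfold rho
  have : 0 ≤ (2 : ℝ) ^ (D c).J * ((‖u j c‖ ^ 2 + ‖(f j).comp (emb P D c)‖ ^ 2) +
    (‖u j (c + 1)‖ ^ 2 + ‖(f j).comp (emb P D (c + 1))‖ ^ 2)) := by positivity
  linarith

theorem sum_rho (h2 : S_MS) (hr : NRep P D ω u f) {K : ℝ} {c : ℕ}
    (hmass : mass P D ω u f c + mass P D ω u f (c + 1) ≤ K / 2 ^ (D c).J) (N : ℕ) :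
    ∑ j : Fin N, ω j * rho P D u f c j ≤ 1 + K := by
  obtain ⟨m1, m2, m3, m4, m5⟩ := h2 P D ω u f hr
  have e1 : ∀ j, ω j * rho P D u f c j = ω j + 2 ^ (D c).J *
      (ω j * (‖u j c‖ ^ 2 + ‖(f j).comp (emb P D c)‖ ^ 2) +
       ω j * (‖u j (c + 1)‖ ^ 2 + ‖(f j).comp (emb P D (c + 1))‖ ^ 2)) := by
    intro j
    unfold rho
    ring
  rw [Fin.sum_univ_eq_sum_range (fun j => ω j * rho P D u f c j) N]
  simp_rw [e1]
  rw [Finset.sum_add_distrib, ← Finset.mul_sum, Finset.sum_add_distrib]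
  have a1 : ∑ j ∈ Finset.range N, ω j ≤ 1 :=
    (hr.hs.sum_le_tsum _ (fun j _ => hr.hω j)).trans hr.h1
  have a2 : ∑ j ∈ Finset.range N, ω j * (‖u j c‖ ^ 2 + ‖(f j).comp (emb P D c)‖ ^ 2) ≤
      mass P D ω u f c :=
    (m2 c).sum_le_tsum _ (fun j _ => mul_nonneg (hr.hω j) (by positivity))
  have a3 : ∑ j ∈ Finset.range N, ω j * (‖u j (c + 1)‖ ^ 2 +
      ‖(f j).comp (emb P D (c + 1))‖ ^ 2) ≤ mass P D ω u f (c + 1) :=
    (m2 (c + 1)).sum_le_tsum _ (fun j _ => mul_nonneg (hr.hω j) (by positivity))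
  have a4 : (2 : ℝ) ^ (D c).J * (K / 2 ^ (D c).J) = K := by field_simp
  have a5 : (2 : ℝ) ^ (D c).J * (∑ j ∈ Finset.range N,
      ω j * (‖u j c‖ ^ 2 + ‖(f j).comp (emb P D c)‖ ^ 2) +
      ∑ j ∈ Finset.range N, ω j * (‖u j (c + 1)‖ ^ 2 +
      ‖(f j).comp (emb P D (c + 1))‖ ^ 2)) ≤ (2 : ℝ) ^ (D c).J * (K / 2 ^ (D c).J) := by
    apply mul_le_mul_of_nonneg_left _ (by positivity)
    linarith
  linarith

theorem ite_ind {c m : ℕ} (k : ℕ) (g : ℕ → ℝ) : (if c + 1 < k ∧ m ≤ k then g k else 0) =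
    ({k | c + 1 < k ∧ m ≤ k} : Set ℕ).indicator g k := by
  by_cases hk : c + 1 < k ∧ m ≤ k
  · rw [if_pos hk, Set.indicator_of_mem (show k ∈ {k | c + 1 < k ∧ m ≤ k} from hk)]
  · rw [if_neg hk, Set.indicator_of_notMem (show k ∉ {k | c + 1 < k ∧ m ≤ k} from hk)]

/-- The two energies of the first `N` atoms. -/
theorem energy (h2 : S_MS) (hr : NRep P D ω u f) (c m J₁ N : ℕ) :
    27 * 4 ^ J₁ * ∑ j : Fin N, ω j * ∑ k ∈ Finset.Ioo (c + 1) m, ‖u j k‖ ^ 2 +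
      20 * ∑ j : Fin N, ω j * ∑' k, (if c + 1 < k ∧ m ≤ k then ‖u j k‖ ^ 2 else 0) ≤
    27 * 4 ^ J₁ * ∑ k ∈ Finset.Ioo (c + 1) m, mass P D ω u f k +
      20 * ∑' k, if c + 1 < k ∧ m ≤ k then mass P D ω u f k else 0 := by
  obtain ⟨m1, m2, m3, m4, m5⟩ := h2 P D ω u f hr
  obtain ⟨s1, s2⟩ := m5 {k | c + 1 < k ∧ m ≤ k}
  have b1 : ∑ j : Fin N, ω j * ∑ k ∈ Finset.Ioo (c + 1) m, ‖u j k‖ ^ 2 ≤
      ∑ k ∈ Finset.Ioo (c + 1) m, mass P D ω u f k := by
    rw [Fin.sum_univ_eq_sum_range (fun j => ω j * ∑ k ∈ Finset.Ioo (c + 1) m, ‖u j k‖ ^ 2) N]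
    simp_rw [Finset.mul_sum]
    rw [Finset.sum_comm]
    apply Finset.sum_le_sum
    intro k _
    calc ∑ j ∈ Finset.range N, ω j * ‖u j k‖ ^ 2
        ≤ ∑ j ∈ Finset.range N, ω j * (‖u j k‖ ^ 2 + ‖(f j).comp (emb P D k)‖ ^ 2) := by
          apply Finset.sum_le_sum
          intro j _
          apply mul_le_mul_of_nonneg_left _ (hr.hω j)
          have : 0 ≤ ‖(f j).comp (emb P D k)‖ ^ 2 := by positivity
          linarith
      _ ≤ mass P D ω u f k :=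
          (m2 k).sum_le_tsum _ (fun j _ => mul_nonneg (hr.hω j) (by positivity))
  have b2 : ∑ j : Fin N, ω j * ∑' k, (if c + 1 < k ∧ m ≤ k then ‖u j k‖ ^ 2 else 0) ≤
      ∑' k, if c + 1 < k ∧ m ≤ k then mass P D ω u f k else 0 := by
    rw [Fin.sum_univ_eq_sum_range
      (fun j => ω j * ∑' k, (if c + 1 < k ∧ m ≤ k then ‖u j k‖ ^ 2 else 0)) N]
    have e1 : ∀ j, ω j * ∑' k, (if c + 1 < k ∧ m ≤ k then ‖u j k‖ ^ 2 else 0) =
        ω j * ∑' k, ({k | c + 1 < k ∧ m ≤ k} : Set ℕ).indicator (fun k => ‖u j k‖ ^ 2) k := by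
      intro j
      congr 1
      exact tsum_congr (fun k => ite_ind (c := c) (m := m) k (fun k => ‖u j k‖ ^ 2))
    have e2 : ∑' k, (if c + 1 < k ∧ m ≤ k then mass P D ω u f k else 0) =
        ∑' k, ({k | c + 1 < k ∧ m ≤ k} : Set ℕ).indicator (mass P D ω u f) k :=
      tsum_congr (fun k => ite_ind (c := c) (m := m) k _)
    rw [e2]
    simp_rw [e1]
    refine (s1.sum_le_tsum _ (fun j _ => mul_nonneg (hr.hω j) (tsum_nonneg (fun k => ?_)))).trans s2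
    exact Set.indicator_nonneg (fun _ _ => by positivity) _
  have b3 : (0 : ℝ) ≤ 27 * 4 ^ J₁ := by positivity
  have b4 := mul_le_mul_of_nonneg_left b1 b3
  linarith

/-- The factor. -/
def sc (P : ℕ → ℕ) (D : ∀ k, Lv (P k) (P (k + 1))) (u : ℕ → XX P D)
    (f : ℕ → (XX P D →L[ℂ] ℂ)) (c : ℕ) (j : ℕ) : ℝ := (Real.sqrt (rho P D u f c j))⁻¹

theorem sc_pos (c j : ℕ) : 0 < sc P D u f c j := by
  have := one_le_rho (P := P) (D := D) (u := u) (f := f) c j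
  unfold sc
  have h1 : 0 < Real.sqrt (rho P D u f c j) := Real.sqrt_pos.2 (by linarith)
  positivity

theorem sc_sq (c j : ℕ) : sc P D u f c j ^ 2 * rho P D u f c j = 1 := by
  have := one_le_rho (P := P) (D := D) (u := u) (f := f) c j
  unfold sc
  rw [inv_pow, Real.sq_sqrt (by linarith), inv_mul_cancel₀ (by linarith)]

theorem sc_le (c j : ℕ) : sc P D u f c j ≤ 1 := by
  have h1 := one_le_rho (P := P) (D := D) (u := u) (f := f) c j
  have h2 := sc_sq (P := P) (D := D) (u := u) (f := f) c j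
  have h3 := sc_pos (P := P) (D := D) (u := u) (f := f) c j
  by_contra h
  push Not at h
  nlinarith

theorem sc_bound (c j : ℕ) {x : ℝ} (hx : 2 ^ (D c).J * x ^ 2 ≤ rho P D u f c j) :
    (sc P D u f c j * x) ^ 2 ≤ 1 / 2 ^ (D c).J := by
  have h2 := sc_sq (P := P) (D := D) (u := u) (f := f) c j
  rw [le_div_iff₀ (by positivity)]
  have h4 : 0 ≤ sc P D u f c j ^ 2 := by positivity
  nlinarith [mul_le_mul_of_nonneg_left hx h4]

theorem cu_N (h2 : S_MS) (hr : NRep P D ω u f) {c m J₁ : ℕ} {K ε R Cst : ℝ}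
    (hCst : 0 ≤ Cst)
    (hCN : ∀ (N : ℕ) (ϖ : Fin N → ℝ)
      (u : Fin N → XX P D) (f : Fin N → (XX P D →L[ℂ] ℂ)), (∀ j, 0 ≤ ϖ j) → ∑ j, ϖ j ≤ 1 + K →
      (∀ j, ‖u j‖ ≤ 1) → (∀ j, ‖f j‖ ≤ 1) → ∑ j, ϖ j * ‖f j‖ ^ 2 ≤ 1 →
      (∀ j, ‖u j c‖ ^ 2 ≤ 1 / 2 ^ (D c).J) → (∀ j, ‖u j (c + 1)‖ ^ 2 ≤ 1 / 2 ^ (D c).J) →
      (∀ j, ‖(f j).comp (emb P D c)‖ ^ 2 ≤ 1 / 2 ^ (D c).J) →
      (∀ j, ‖(f j).comp (emb P D (c + 1))‖ ^ 2 ≤ 1 / 2 ^ (D c).J) →
      ∃ G : Fin N → (XX P D →L[ℂ] ℂ), (∀ j, ‖G j‖ ≤ Cst) ∧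
        ‖∑ i, (ϖ i : ℂ) * f i (Qb P D (c + 1) (u i) - ∑ j, ((ϖ j : ℂ) * G j (u i)) • u j)‖ ≤
          4 * Real.sqrt (1 + K) * ε + 2 * (1 + K) * R / 2 ^ (D c).J +
          Real.sqrt (27 * 4 ^ J₁ * ∑ j, ϖ j * ∑ k ∈ Finset.Ioo (c + 1) m, ‖u j k‖ ^ 2 +
            20 * ∑ j, ϖ j * ∑' k, if c + 1 < k ∧ m ≤ k then ‖u j k‖ ^ 2 else 0))
    (hmass : mass P D ω u f c + mass P D ω u f (c + 1) ≤ K / 2 ^ (D c).J) (N : ℕ) :
    ‖∑' i, (ω i : ℂ) * f i (Qb P D (c + 1) (u i))‖ ≤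
        4 * Real.sqrt (1 + K) * ε + 2 * (1 + K) * R / 2 ^ (D c).J +
        Real.sqrt (27 * 4 ^ J₁ * ∑ k ∈ Finset.Ioo (c + 1) m, mass P D ω u f k +
          20 * ∑' k, if c + 1 < k ∧ m ≤ k then mass P D ω u f k else 0) +
        (∑' i, ω (i + N)) * (‖Qb P D (c + 1)‖ + (1 + K) * Cst) := by
  have hρ := fun j => one_le_rho (P := P) (D := D) (u := u) (f := f) c j
  have hs := fun j => sc_pos (P := P) (D := D) (u := u) (f := f) c j
  have hsq := fun j => sc_sq (P := P) (D := D) (u := u) (f := f) c j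
  have hsle := fun j => sc_le (P := P) (D := D) (u := u) (f := f) c j
  have hsn : ∀ j, ‖((sc P D u f c j : ℝ) : ℂ)‖ = sc P D u f c j := fun j => by
    rw [Complex.norm_real, Real.norm_of_nonneg (hs j).le]
  have hϖ0 : ∀ j, 0 ≤ ω j * rho P D u f c j := fun j =>
    mul_nonneg (hr.hω j) (by linarith [hρ j])
  have hcoe : ∀ (j k : ℕ), ‖(((sc P D u f c j : ℝ) : ℂ) • u j : XX P D) k‖ =
      sc P D u f c j * ‖u j k‖ := by
    intro j k
    rw [lp.coeFn_smul, Pi.smul_apply, norm_smul, hsn]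
  have hcomp : ∀ (j k : ℕ), ‖(((sc P D u f c j : ℝ) : ℂ) • f j).comp (emb P D k)‖ =
      sc P D u f c j * ‖(f j).comp (emb P D k)‖ := by
    intro j k
    rw [ContinuousLinearMap.smul_comp, norm_smul, hsn]
  have hb := sum_rho h2 hr hmass N
  obtain ⟨G, hG, hmain⟩ := hCN N (fun j => ω j * rho P D u f c j)
    (fun j => ((sc P D u f c j : ℝ) : ℂ) • u j) (fun j => ((sc P D u f c j : ℝ) : ℂ) • f j)
    (fun j => hϖ0 j) hb
    (fun j => by
      rw [norm_smul, hsn]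
      exact mul_le_one₀ (hsle j) (norm_nonneg _) (hr.hu j))
    (fun j => by
      rw [norm_smul, hsn]
      exact mul_le_one₀ (hsle j) (norm_nonneg _) (hr.hf j))
    (by
      have e1 : ∀ j : ℕ, ω j * rho P D u f c j * ‖((sc P D u f c j : ℝ) : ℂ) • f j‖ ^ 2 ≤ ω j := by
        intro j
        rw [norm_smul, hsn, mul_pow]
        have e2 : ‖f j‖ ^ 2 ≤ 1 := pow_le_one₀ (norm_nonneg _) (hr.hf j)
        have e3 := hsq j
        have e4 := hr.hω j
        calc ω j * rho P D u f c j * (sc P D u f c j ^ 2 * ‖f j‖ ^ 2)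
            = ω j * (sc P D u f c j ^ 2 * rho P D u f c j) * ‖f j‖ ^ 2 := by ring
          _ = ω j * ‖f j‖ ^ 2 := by rw [e3, mul_one]
          _ ≤ ω j * 1 := by gcongr
          _ = ω j := mul_one _
      calc ∑ j : Fin N, ω j * rho P D u f c j * ‖((sc P D u f c j : ℝ) : ℂ) • f j‖ ^ 2
          ≤ ∑ j : Fin N, ω j := Finset.sum_le_sum (fun j _ => e1 j)
        _ = ∑ j ∈ Finset.range N, ω j := Fin.sum_univ_eq_sum_range ω N
        _ ≤ 1 := (hr.hs.sum_le_tsum _ (fun j _ => hr.hω j)).trans hr.h1)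
    (fun j => by
      rw [hcoe]
      apply sc_bound
      unfold rho
      have : (0 : ℝ) < 2 ^ (D c).J := by positivity
      nlinarith [sq_nonneg ‖(f j).comp (emb P D c)‖, sq_nonneg ‖(f j).comp (emb P D (c + 1))‖,
        sq_nonneg ‖u j (c + 1)‖, mul_nonneg this.le (sq_nonneg ‖(f j).comp (emb P D c)‖),
        mul_nonneg this.le (sq_nonneg ‖(f j).comp (emb P D (c + 1))‖),
        mul_nonneg this.le (sq_nonneg ‖u j (c + 1)‖)])
    (fun j => by
      rw [hcoe]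
      apply sc_bound
      unfold rho
      have : (0 : ℝ) < 2 ^ (D c).J := by positivity
      nlinarith [mul_nonneg this.le (sq_nonneg ‖(f j).comp (emb P D c)‖),
        mul_nonneg this.le (sq_nonneg ‖(f j).comp (emb P D (c + 1))‖),
        mul_nonneg this.le (sq_nonneg ‖u j c‖)])
    (fun j => by
      rw [hcomp]
      apply sc_bound
      unfold rho
      have : (0 : ℝ) < 2 ^ (D c).J := by positivity
      nlinarith [mul_nonneg this.le (sq_nonneg ‖u j c‖),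
        mul_nonneg this.le (sq_nonneg ‖(f j).comp (emb P D (c + 1))‖),
        mul_nonneg this.le (sq_nonneg ‖u j (c + 1)‖)])
    (fun j => by
      rw [hcomp]
      apply sc_bound
      unfold rho
      have : (0 : ℝ) < 2 ^ (D c).J := by positivity
      nlinarith [mul_nonneg this.le (sq_nonneg ‖u j c‖),
        mul_nonneg this.le (sq_nonneg ‖(f j).comp (emb P D c)‖),
        mul_nonneg this.le (sq_nonneg ‖u j (c + 1)‖)])
  -- the finite rank operator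
  set a : Fin N → ℂ := fun j => ((ω j * rho P D u f c j : ℝ) : ℂ) *
    ((sc P D u f c j : ℝ) : ℂ) with ha
  set S : XX P D →L[ℂ] XX P D := ∑ j : Fin N, (G j).smulRight (a j • u j) with hSdef
  have hSap : ∀ z, ∑ j : Fin N, (((ω j * rho P D u f c j : ℝ) : ℂ) * G j z) •
      (((sc P D u f c j : ℝ) : ℂ) • u j) = S z := by
    intro z
    rw [hSdef, sum_apply]
    refine Finset.sum_congr rfl (fun j _ => ?_)
    rw [ContinuousLinearMap.smulRight_apply, ha, smul_smul, smul_smul]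
    congr 1
    ring
  have hSn : ‖S‖ ≤ (1 + K) * Cst := by
    calc ‖S‖ ≤ ∑ j : Fin N, ‖(G j).smulRight (a j • u j)‖ := norm_sum_le _ _
      _ ≤ ∑ j : Fin N, (ω j * rho P D u f c j) * Cst := by
        apply Finset.sum_le_sum
        intro j _
        rw [ContinuousLinearMap.norm_smulRight_apply, norm_smul, ha, norm_mul, hsn,
          Complex.norm_real, Real.norm_of_nonneg (hϖ0 j)]
        have g1 := hG j
        have g2 := hr.hu j
        have g3 := hsle j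
        have g4 := (hs j).le
        have g5 := hϖ0 j
        calc ‖G j‖ * (ω j * rho P D u f c j * sc P D u f c j * ‖u j‖)
            ≤ Cst * (ω j * rho P D u f c j * 1 * 1) := by gcongr
          _ = _ := by ring
      _ = (∑ j : Fin N, (ω j * rho P D u f c j)) * Cst := by rw [Finset.sum_mul]
      _ ≤ (1 + K) * Cst := mul_le_mul_of_nonneg_right hb hCst
  have hterm : ∀ i : Fin N, (((ω i * rho P D u f c i : ℝ) : ℂ)) *
      (((sc P D u f c i : ℝ) : ℂ) • f i) (Qb P D (c + 1) (((sc P D u f c i : ℝ) : ℂ) • u i) -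
        ∑ j : Fin N, (((ω j * rho P D u f c j : ℝ) : ℂ) *
          G j (((sc P D u f c i : ℝ) : ℂ) • u i)) • (((sc P D u f c j : ℝ) : ℂ) • u j)) =
      (ω i : ℂ) * f i ((Qb P D (c + 1) - S) (u i)) := by
    intro i
    rw [hSap, ← sub_apply, map_smul, smul_apply, map_smul, smul_eq_mul,
      smul_eq_mul, ← mul_assoc, ← mul_assoc]
    congr 1
    have := hsq i
    rw [← Complex.ofReal_mul, ← Complex.ofReal_mul]
    congr 1
    calc ω i * rho P D u f c i * sc P D u f c i * sc P D u f c i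
        = ω i * (sc P D u f c i ^ 2 * rho P D u f c i) := by ring
      _ = ω i := by rw [this, mul_one]
  rw [Finset.sum_congr rfl (fun i _ => hterm i)] at hmain
  have hw : ∀ j k : ℕ, ω j * rho P D u f c j * ‖(((sc P D u f c j : ℝ) : ℂ) • u j : XX P D) k‖ ^ 2 =
      ω j * ‖u j k‖ ^ 2 := by
    intro j k
    rw [hcoe, mul_pow]
    calc ω j * rho P D u f c j * (sc P D u f c j ^ 2 * ‖u j k‖ ^ 2)
        = ω j * (sc P D u f c j ^ 2 * rho P D u f c j) * ‖u j k‖ ^ 2 := by ring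
      _ = _ := by rw [hsq j, mul_one]
  have hen1 : ∑ j : Fin N, (ω j * rho P D u f c j) * ∑ k ∈ Finset.Ioo (c + 1) m,
      ‖(((sc P D u f c j : ℝ) : ℂ) • u j : XX P D) k‖ ^ 2 =
      ∑ j : Fin N, ω j * ∑ k ∈ Finset.Ioo (c + 1) m, ‖u j k‖ ^ 2 := by
    refine Finset.sum_congr rfl (fun j _ => ?_)
    rw [Finset.mul_sum, Finset.mul_sum]
    exact Finset.sum_congr rfl (fun k _ => hw j k)
  have hen2 : ∑ j : Fin N, (ω j * rho P D u f c j) * ∑' k, (if c + 1 < k ∧ m ≤ k then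
      ‖(((sc P D u f c j : ℝ) : ℂ) • u j : XX P D) k‖ ^ 2 else 0) =
      ∑ j : Fin N, ω j * ∑' k, (if c + 1 < k ∧ m ≤ k then ‖u j k‖ ^ 2 else 0) := by
    refine Finset.sum_congr rfl (fun j _ => ?_)
    rw [← tsum_mul_left, ← tsum_mul_left]
    refine tsum_congr (fun k => ?_)
    by_cases hk : c + 1 < k ∧ m ≤ k
    · rw [if_pos hk, if_pos hk]
      exact hw j k
    · rw [if_neg hk, if_neg hk, mul_zero, mul_zero]
  rw [hen1, hen2] at hmain
  have hmain2 := hmain.trans (add_le_add_right (Real.sqrt_le_sqrt (energy h2 hr c m J₁ N)) _)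
  rw [Fin.sum_univ_eq_sum_range (fun i => (ω i : ℂ) * f i ((Qb P D (c + 1) - S) (u i))) N]
    at hmain2
  -- the trace
  have ht : ∑' i, (ω i : ℂ) * f i (Qb P D (c + 1) (u i)) =
      ∑' i, (ω i : ℂ) * f i ((Qb P D (c + 1) - S) (u i)) := by
    have t1 := (tr_summ hr (Qb P D (c + 1) - S)).tsum_add (tr_summ hr S)
    rw [tr_fin hr N G a, add_zero] at t1
    rw [← t1]
    refine tsum_congr (fun i => ?_)
    rw [sub_apply, map_sub]
    ring
  rw [ht, ← (tr_summ hr (Qb P D (c + 1) - S)).sum_add_tsum_nat_add N]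
  refine (norm_add_le _ _).trans (add_le_add hmain2 ?_)
  have hT : ‖Qb P D (c + 1) - S‖ ≤ ‖Qb P D (c + 1)‖ + (1 + K) * Cst :=
    (norm_sub_le _ _).trans (add_le_add_right hSn _)
  have hsN : Summable (fun i => ω (i + N)) := (summable_nat_add_iff N).2 hr.hs
  have h3 : ‖∑' i, (ω (i + N) : ℂ) * f (i + N) ((Qb P D (c + 1) - S) (u (i + N)))‖ ≤
      (∑' i, ω (i + N)) * ‖Qb P D (c + 1) - S‖ :=
    tsum_of_norm_bounded (hsN.hasSum.mul_right _) (fun i => tr_bound hr _ (i + N))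
  exact h3.trans (mul_le_mul_of_nonneg_left hT (tsum_nonneg (fun i => hr.hω _)))

theorem cu (h1 : S_CN) (h2 : S_MS) (_h3 : S_LP2) : S_CU := by
  intro P D c m J₁ K ε R _ hcut ω u f hr hmass
  obtain ⟨Cst, hCst, hCN⟩ := h1 P D c m J₁ (1 + K) ε R hcut
  have hN := fun N => cu_N h2 hr hCst hCN hmass N
  have hlim : Tendsto (fun N => 4 * Real.sqrt (1 + K) * ε + 2 * (1 + K) * R / 2 ^ (D c).J +
        Real.sqrt (27 * 4 ^ J₁ * ∑ k ∈ Finset.Ioo (c + 1) m, mass P D ω u f k +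
          20 * ∑' k, if c + 1 < k ∧ m ≤ k then mass P D ω u f k else 0) +
        (∑' i, ω (i + N)) * (‖Qb P D (c + 1)‖ + (1 + K) * Cst)) atTop
      (𝓝 (4 * Real.sqrt (1 + K) * ε + 2 * (1 + K) * R / 2 ^ (D c).J +
        Real.sqrt (27 * 4 ^ J₁ * ∑ k ∈ Finset.Ioo (c + 1) m, mass P D ω u f k +
          20 * ∑' k, if c + 1 < k ∧ m ≤ k then mass P D ω u f k else 0) +
        0 * (‖Qb P D (c + 1)‖ + (1 + K) * Cst))) :=
    ((tendsto_sum_nat_add ω).mul_const _).const_add _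
  rw [zero_mul, add_zero] at hlim
  exact ge_of_tendsto' hlim hN

end Pool.Agent.Helper13.HL
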