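import Pool.Agent.Helper25.HL.Goals4

/-!
# Packet HL-PQ: the numerical sequences of the windows
-/

set_option autoImplicit false

open Filter Topology

noncomputable section

namespace Pool.Agent.Helper13.HL

open Pool.Agent.Helper25.HL

/-- The number `log₂ i + 1`. -/
def lg (i : ℕ) : ℕ := Nat.log 2 i + 1

theorem lg_mono {m n : ℕ} (h : m ≤ n) : lg m ≤ lg n :=
  Nat.succ_le_succ (Nat.log_mono_right h)

theorem lg_pos (i : ℕ) : 1 ≤ lg i := Nat.succ_le_succ (Nat.zero_le _)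

theorem lg_two_pow (k : ℕ) : lg (2 ^ k) = k + 1 := by
  unfold lg
  rw [Nat.log_pow (by norm_num)]

theorem cond_mono (e : ℕ) : ∀ ⦃m n : ℕ⦄, 0 < m → m ≤ n →
    1 / ((n : ℝ) * (lg n : ℝ) ^ e) ≤ 1 / ((m : ℝ) * (lg m : ℝ) ^ e) := by
  intro m n hm hmn
  have h1 : (0 : ℝ) < m := by exact_mod_cast hm
  have h2 : (0 : ℝ) < lg m := by exact_mod_cast lg_pos m
  have h3 : (m : ℝ) ≤ n := by exact_mod_cast hmn
  have h4 : (lg m : ℝ) ≤ lg n := by exact_mod_cast lg_mono hmn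
  apply one_div_le_one_div_of_le (by positivity)
  gcongr

theorem cond_iff (e : ℕ) : Summable (fun k : ℕ => 1 / ((k : ℝ) + 1) ^ e) ↔
    Summable (fun n : ℕ => 1 / ((n : ℝ) * (lg n : ℝ) ^ e)) := by
  rw [← summable_condensed_iff_of_nonneg (fun n => by positivity) (cond_mono e)]
  apply summable_congr
  intro k
  rw [lg_two_pow]
  push_cast
  have : (2 : ℝ) ^ k ≠ 0 := by positivity
  field_simp

theorem shift_iff (e : ℕ) : Summable (fun k : ℕ => 1 / ((k : ℝ) + 1) ^ e) ↔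
    Summable (fun n : ℕ => 1 / (((n : ℝ) + 1) * (lg (n + 1) : ℝ) ^ e)) := by
  rw [cond_iff, ← summable_nat_add_iff 1]
  apply summable_congr
  intro k
  push_cast
  rfl

theorem base_iff (e : ℕ) : Summable (fun k : ℕ => 1 / ((k : ℝ) + 1) ^ e) ↔ 1 < e := by
  rw [← Real.summable_one_div_nat_pow,
    ← summable_nat_add_iff (f := fun n : ℕ => 1 / (n : ℝ) ^ e) 1]
  apply summable_congr
  intro k
  push_cast
  rfl

theorem lg_tendsto : Tendsto (fun i => lg (i + 1)) atTop atTop := by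
  apply tendsto_atTop_atTop_of_monotone
  · intro m n h
    exact lg_mono (by omega)
  · intro b
    refine ⟨2 ^ b, ?_⟩
    calc b ≤ b + 1 := Nat.le_succ b
      _ = lg (2 ^ b) := (lg_two_pow b).symm
      _ ≤ lg (2 ^ b + 1) := lg_mono (Nat.le_succ _)

/-- The number `J₁`. -/
def jj (i : ℕ) : ℕ := Nat.log 2 ((1 + lg (i + 1)) ^ 3) + 22

theorem jj_low (i : ℕ) : 2 ^ 21 * (1 + (lg (i + 1) : ℝ)) ^ 3 ≤ 2 ^ (jj i) := by
  have h := Nat.lt_pow_succ_log_self (b := 2) (by norm_num) ((1 + lg (i + 1)) ^ 3)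
  have h2 : 2 ^ 21 * (1 + lg (i + 1)) ^ 3 ≤ 2 ^ (jj i) := by
    unfold jj
    rw [show Nat.log 2 ((1 + lg (i + 1)) ^ 3) + 22 =
      21 + (Nat.log 2 ((1 + lg (i + 1)) ^ 3)).succ by omega, pow_add]
    exact Nat.mul_le_mul_left _ h.le
  exact_mod_cast h2

theorem jj_up (i : ℕ) : (2 : ℝ) ^ (jj i) ≤ 2 ^ 22 * (1 + (lg (i + 1) : ℝ)) ^ 3 := by
  have h := Nat.pow_log_le_self 2 (x := (1 + lg (i + 1)) ^ 3) (by positivity)
  have h2 : 2 ^ (jj i) ≤ 2 ^ 22 * (1 + lg (i + 1)) ^ 3 := by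
    unfold jj
    rw [add_comm, pow_add]
    exact Nat.mul_le_mul_left _ h
  exact_mod_cast h2

theorem pow_lg_le (i : ℕ) : (2 : ℝ) ^ (lg (i + 1)) ≤ 2 * ((i : ℝ) + 1) := by
  have h := Nat.pow_log_le_self 2 (x := i + 1) (by omega)
  have h2 : 2 ^ (lg (i + 1)) ≤ 2 * (i + 1) := by
    unfold lg
    rw [pow_succ, mul_comm]
    exact Nat.mul_le_mul_left _ h
  exact_mod_cast h2

theorem pq : S_PQ := by
  have hk : ∀ i : ℕ, (1 : ℝ) ≤ lg (i + 1) := fun i => by exact_mod_cast lg_pos (i + 1)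
  have hk0 : ∀ i : ℕ, (0 : ℝ) < lg (i + 1) := fun i => by linarith [hk i]
  have hprod : ∀ i : ℕ, 1 / (((i : ℝ) + 1) * (lg (i + 1) : ℝ) ^ 2) * (lg (i + 1) : ℝ) =
      1 / (((i : ℝ) + 1) * (lg (i + 1) : ℝ) ^ 1) := by
    intro i
    have := hk0 i
    field_simp
  refine ⟨fun i => (lg (i + 1) : ℝ), fun i => 1 / (((i : ℝ) + 1) * (lg (i + 1) : ℝ) ^ 2), jj,
    fun i => (hk0 i).le, fun i => ?_, fun i => ?_, fun i => ?_, ?_, ?_, ?_, ?_, fun i => ?_⟩
  · have := hk0 i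
    positivity
  · have h1 := hk i
    have h2 : (1 : ℝ) ≤ (i : ℝ) + 1 := by
      have : (0 : ℝ) ≤ i := Nat.cast_nonneg i
      linarith
    have h3 : (1 : ℝ) ≤ (lg (i + 1) : ℝ) ^ 2 := one_le_pow₀ h1
    rw [div_le_one (by positivity)]
    nlinarith
  · unfold jj
    omega
  · exact (shift_iff 2).1 ((base_iff 2).2 (by norm_num))
  · simp_rw [hprod]
    rw [← shift_iff 1, base_iff 1]
    norm_num
  · exact tendsto_natCast_atTop_atTop.comp lg_tendsto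
  · -- the decay
    have h1 : Tendsto (fun n : ℕ => (n : ℝ) ^ 6 / 2 ^ n) atTop (𝓝 0) :=
      tendsto_pow_const_div_const_pow_of_one_lt 6 (by norm_num)
    have h2 : Tendsto (fun i : ℕ => 2 ^ 46 * (((lg (i + 1) + 1 : ℕ) : ℝ) ^ 6 /
        2 ^ (lg (i + 1) + 1))) atTop (𝓝 (2 ^ 46 * 0)) :=
      (h1.comp ((tendsto_add_atTop_nat 1).comp lg_tendsto)).const_mul _
    rw [mul_zero] at h2
    apply squeeze_zero _ _ h2
    · intro i
      have := hk0 i
      positivity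
    · intro i
      have e0 := hk0 i
      have e1 := hk i
      rw [hprod, pow_one]
      have e2 : (4 : ℝ) ^ (jj i) = (2 ^ (jj i)) ^ 2 := by
        rw [← pow_mul, mul_comm, pow_mul]
        norm_num
      have e3 := jj_up i
      have e4 := pow_lg_le i
      have e5 : (4 : ℝ) ^ (jj i) ≤ 2 ^ 44 * (1 + (lg (i + 1) : ℝ)) ^ 6 := by
        rw [e2]
        calc ((2 : ℝ) ^ (jj i)) ^ 2 ≤ (2 ^ 22 * (1 + (lg (i + 1) : ℝ)) ^ 3) ^ 2 := by gcongr
          _ = _ := by ring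
      have e6 : 1 / (((i : ℝ) + 1) * (lg (i + 1) : ℝ)) ≤ 2 / 2 ^ (lg (i + 1)) := by
        rw [div_le_div_iff₀ (by positivity) (by positivity)]
        have : (0 : ℝ) < (i : ℝ) + 1 := by positivity
        nlinarith
      calc (4 : ℝ) ^ (jj i) * (1 / (((i : ℝ) + 1) * (lg (i + 1) : ℝ)))
          ≤ (2 ^ 44 * (1 + (lg (i + 1) : ℝ)) ^ 6) * (2 / 2 ^ (lg (i + 1))) := by gcongr
        _ = 2 ^ 46 * (((lg (i + 1) + 1 : ℕ) : ℝ) ^ 6 / 2 ^ (lg (i + 1) + 1)) := by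
          push_cast
          rw [pow_succ (2 : ℝ) (lg (i + 1))]
          field_simp
          ring
  · have e0 := hk0 i
    have e1 := jj_low i
    have e2 : (0 : ℝ) < 2 ^ (jj i) := by positivity
    rw [one_div, inv_pow, ← mul_div_assoc, div_le_iff₀ e2, ← div_eq_inv_mul,
      le_div_iff₀ (by positivity)]
    calc 2 ^ 20 * (1 + (lg (i + 1) : ℝ)) * 2 * (1 + (lg (i + 1) : ℝ)) ^ 2
        = 2 ^ 21 * (1 + (lg (i + 1) : ℝ)) ^ 3 := by ring
      _ ≤ _ := e1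

end Pool.Agent.Helper13.HL
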